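import Pool.Agent.Lib.MP_d0f9e0_co.FN.Core

/-!
# Sixteen equiangular unit vectors in dimension four

The vectors `(x, s, t, st)`, `(a, x, b, -ab)`, `(a, -ab, x, b)`, `(a, b, -ab, x)` with `s, t, b = ±1`,
`a = ±i` and `x ^ 2 = 2 + √5`.
-/

set_option autoImplicit false

open scoped BigOperators ComplexConjugate

namespace Pool.MP_d0f9e0_co.AN21

/-- The tables: entry `(α, p, q)` stands for `α x + p + q i`. -/
def tab : Fin 16 → Fin 4 → ℤ × ℤ × ℤ :=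
  ![![(1,0,0), (0,1,0), (0,1,0), (0,1,0)],
    ![(1,0,0), (0,1,0), (0,-1,0), (0,-1,0)],
    ![(1,0,0), (0,-1,0), (0,1,0), (0,-1,0)],
    ![(1,0,0), (0,-1,0), (0,-1,0), (0,1,0)],
    ![(0,0,1), (1,0,0), (0,1,0), (0,0,-1)],
    ![(0,0,1), (1,0,0), (0,-1,0), (0,0,1)],
    ![(0,0,-1), (1,0,0), (0,1,0), (0,0,1)],
    ![(0,0,-1), (1,0,0), (0,-1,0), (0,0,-1)],
    ![(0,0,1), (0,0,-1), (1,0,0), (0,1,0)],
    ![(0,0,1), (0,0,1), (1,0,0), (0,-1,0)],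
    ![(0,0,-1), (0,0,1), (1,0,0), (0,1,0)],
    ![(0,0,-1), (0,0,-1), (1,0,0), (0,-1,0)],
    ![(0,0,1), (0,1,0), (0,0,-1), (1,0,0)],
    ![(0,0,1), (0,-1,0), (0,0,1), (1,0,0)],
    ![(0,0,-1), (0,1,0), (0,0,1), (1,0,0)],
    ![(0,0,-1), (0,-1,0), (0,0,-1), (1,0,0)]]

def tA (i j : Fin 16) : ℤ := ∑ k, (tab i k).1 * (tab j k).1
def tBr (i j : Fin 16) : ℤ := ∑ k, ((tab i k).1 * (tab j k).2.1 + (tab j k).1 * (tab i k).2.1)
def tBi (i j : Fin 16) : ℤ := ∑ k, ((tab i k).1 * (tab j k).2.2 - (tab j k).1 * (tab i k).2.2)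
def tCr (i j : Fin 16) : ℤ := ∑ k, ((tab i k).2.1 * (tab j k).2.1 + (tab i k).2.2 * (tab j k).2.2)
def tCi (i j : Fin 16) : ℤ := ∑ k, ((tab i k).2.1 * (tab j k).2.2 - (tab i k).2.2 * (tab j k).2.1)

theorem tab_diag : ∀ i, tA i i = 1 ∧ tBr i i = 0 ∧ tBi i i = 0 ∧ tCr i i = 3 ∧ tCi i i = 0 := by
  decide +kernel

theorem tab_off : ∀ i j, i ≠ j →
    (tA i j = 1 ∧ tBr i j = 0 ∧ tBi i j = 0 ∧ tCr i j = -1 ∧ tCi i j = 0) ∨
    (tA i j = 0 ∧ tBr i j ^ 2 + tBi i j ^ 2 = 2 ∧ tCr i j ^ 2 + tCi i j ^ 2 = 2 ∧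
      tBr i j * tCr i j + tBi i j * tCi i j = 0) := by
  decide +kernel

/-- The real number `x`. -/
noncomputable def xx : ℝ := Real.sqrt (2 + Real.sqrt 5)

theorem xx_sq : xx ^ 2 = 2 + Real.sqrt 5 := Real.sq_sqrt (by positivity)

/-- The unnormalised vectors. -/
noncomputable def uu (i : Fin 16) (k : Fin 4) : ℂ :=
  ((tab i k).1 : ℂ) * (xx : ℂ) + ((tab i k).2.1 : ℂ) + ((tab i k).2.2 : ℂ) * Complex.I

theorem uu_inner (i j : Fin 16) : ∑ k, uu j k * conj (uu i k) =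
    (tA i j : ℂ) * (xx : ℂ) ^ 2 + ((tBr i j : ℂ) + (tBi i j : ℂ) * Complex.I) * (xx : ℂ) +
      ((tCr i j : ℂ) + (tCi i j : ℂ) * Complex.I) := by
  simp only [tA, tBr, tBi, tCr, tCi, Int.cast_sum, Int.cast_add, Int.cast_sub, Int.cast_mul]
  rw [Finset.sum_mul, Finset.sum_mul, ← Finset.sum_add_distrib, Finset.sum_mul,
    ← Finset.sum_add_distrib, Finset.sum_mul, ← Finset.sum_add_distrib, ← Finset.sum_add_distrib]
  refine Finset.sum_congr rfl fun k _ => ?_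
  have hI := Complex.I_sq
  simp only [uu, map_add, map_mul, Complex.conj_I, Complex.conj_ofReal, map_intCast]
  linear_combination (-((tab j k).2.2 : ℂ) * ((tab i k).2.2 : ℂ)) * hI

theorem normSq_form (A Br Bi Cr Ci : ℤ) (x : ℝ) :
    ‖(A : ℂ) * (x : ℂ) ^ 2 + ((Br : ℂ) + (Bi : ℂ) * Complex.I) * (x : ℂ) +
      ((Cr : ℂ) + (Ci : ℂ) * Complex.I)‖ ^ 2 =
      (A * x ^ 2 + Br * x + Cr) ^ 2 + (Bi * x + Ci) ^ 2 := by
  have e : (A : ℂ) * (x : ℂ) ^ 2 + ((Br : ℂ) + (Bi : ℂ) * Complex.I) * (x : ℂ) +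
      ((Cr : ℂ) + (Ci : ℂ) * Complex.I) =
      ((A * x ^ 2 + Br * x + Cr : ℝ) : ℂ) + ((Bi * x + Ci : ℝ) : ℂ) * Complex.I := by
    push_cast; ring
  rw [e, ← Complex.normSq_eq_norm_sq, Complex.normSq_add_mul_I]

theorem s5 : Real.sqrt 5 ^ 2 = 5 := Real.sq_sqrt (by norm_num)

theorem hasETF_four : Pool.Agent.Lib.MP_d0f9e0_co.FN.HasETF 4 := by
  have hs := s5
  have h5 : 0 < Real.sqrt 5 := by positivity
  have hN : 0 < 5 + Real.sqrt 5 := by positivity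
  set N : ℝ := 1 / Real.sqrt (5 + Real.sqrt 5) with hNdef
  have hN2 : N ^ 2 = 1 / (5 + Real.sqrt 5) := by
    rw [hNdef, div_pow, one_pow, Real.sq_sqrt hN.le]
  have key : ∀ i j : Fin 16, inner ℂ (WithLp.toLp 2 (fun k => (N : ℂ) * uu i k) : EuclideanSpace ℂ (Fin 4))
      (WithLp.toLp 2 (fun k => (N : ℂ) * uu j k)) = (N : ℂ) ^ 2 * ∑ k, uu j k * conj (uu i k) := by
    intro i j
    rw [EuclideanSpace.inner_eq_star_dotProduct]
    simp only [dotProduct, Pi.star_apply, Finset.mul_sum]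
    refine Finset.sum_congr rfl fun k _ => ?_
    simp only [star_mul', RCLike.star_def, Complex.conj_ofReal]
    ring
  have hx2 := xx_sq
  refine ⟨fun i => WithLp.toLp 2 (fun k => (N : ℂ) * uu i k), fun i => ?_, fun i j hij => ?_⟩
  · have h1 : ‖(WithLp.toLp 2 (fun k => (N : ℂ) * uu i k) : EuclideanSpace ℂ (Fin 4))‖ ^ 2 = 1 := by
      have h2 := inner_self_eq_norm_sq_to_K (𝕜 := ℂ)
        (WithLp.toLp 2 (fun k => (N : ℂ) * uu i k) : EuclideanSpace ℂ (Fin 4))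
      rw [key, uu_inner] at h2
      obtain ⟨a1, a2, a3, a4, a5⟩ := tab_diag i
      rw [a1, a2, a3, a4, a5] at h2
      have h3 : ((‖(WithLp.toLp 2 (fun k => (N : ℂ) * uu i k) : EuclideanSpace ℂ (Fin 4))‖ ^ 2 : ℝ) : ℂ)
          = ((N ^ 2 * (xx ^ 2 + 3) : ℝ) : ℂ) := by
        have h4 : ((‖(WithLp.toLp 2 (fun k => (N : ℂ) * uu i k) : EuclideanSpace ℂ (Fin 4))‖ ^ 2 : ℝ) : ℂ)
          = ((‖(WithLp.toLp 2 (fun k => (N : ℂ) * uu i k) : EuclideanSpace ℂ (Fin 4))‖ : ℝ) : ℂ) ^ 2 := by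
          push_cast; rfl
        rw [h4]
        refine h2.symm.trans ?_
        push_cast
        ring
      have h5 := Complex.ofReal_injective h3
      rw [h5, hN2, hx2]
      field_simp
      ring
    exact (pow_eq_one_iff_of_nonneg (norm_nonneg _) two_ne_zero).mp h1
  · have h1 : ‖inner ℂ (WithLp.toLp 2 (fun k => (N : ℂ) * uu i k) : EuclideanSpace ℂ (Fin 4))
        (WithLp.toLp 2 (fun k => (N : ℂ) * uu j k))‖ ^ 2 = 1 / 5 := by
      rw [key, norm_mul, mul_pow, uu_inner, normSq_form]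
      have h2 : ‖(N : ℂ) ^ 2‖ ^ 2 = (1 / (5 + Real.sqrt 5)) ^ 2 := by
        rw [norm_pow, Complex.norm_real, Real.norm_eq_abs, sq_abs, hN2]
      rw [h2]
      have h3 : ((tA i j : ℝ) * xx ^ 2 + tBr i j * xx + tCr i j) ^ 2 + (tBi i j * xx + tCi i j) ^ 2 =
          (1 + Real.sqrt 5) ^ 2 := by
        rcases tab_off i j hij with ⟨a1, a2, a3, a4, a5⟩ | ⟨a1, a2, a3, a4⟩
        · rw [a1, a2, a3, a4, a5, hx2]
          push_cast
          ring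
        · have b2 : (tBr i j : ℝ) ^ 2 + (tBi i j : ℝ) ^ 2 = 2 := by exact_mod_cast a2
          have b3 : (tCr i j : ℝ) ^ 2 + (tCi i j : ℝ) ^ 2 = 2 := by exact_mod_cast a3
          have b4 : (tBr i j : ℝ) * tCr i j + (tBi i j : ℝ) * tCi i j = 0 := by exact_mod_cast a4
          rw [a1]
          push_cast
          linear_combination xx ^ 2 * b2 + b3 + 2 * xx * b4 + 2 * hx2 - hs
      rw [h3]
      have h6 : (1 + Real.sqrt 5) ^ 2 * 5 = (5 + Real.sqrt 5) ^ 2 := by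
        linear_combination 4 * hs
      have h7 : (5 + Real.sqrt 5) ^ 2 ≠ 0 := by positivity
      rw [div_pow, one_pow, one_div_mul_eq_div, div_eq_div_iff h7 (by norm_num), h6, one_mul]
    have h8 : (1 / Real.sqrt (((4 : ℕ) : ℝ) + 1)) ^ 2 = 1 / 5 := by
      rw [div_pow, one_pow, Real.sq_sqrt (by positivity)]
      norm_num
    rw [← h8] at h1
    exact (pow_left_inj₀ (norm_nonneg _) (by positivity) two_ne_zero).mp h1

end Pool.MP_d0f9e0_co.AN21
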