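import Pool.Agent.Lib.MP_d0f9e0_co.U.Pg

/-!
# The exceptional pairs of the finite beta formula

`uncert`: the uncertainty principle `|supp f| * |supp (ft f)| ≥ |G|` for a finite commutative group.

`all_of_good`: if the finite beta formula `A2 p y` holds for all `p, y` with `p`, `y`, `p + y` nonzero
and not both of order two, then it holds for all `p ≠ 0` and all `y`, provided `|G| ≥ 17` and `G` has
at most four elements of order dividing two.
-/

set_option autoImplicit false

open Finset

namespace Pool.MP_d0f9e0_co.AN21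

open ZU

variable {G : Type*} [AddCommGroup G] [Fintype G] [DecidableEq G]

theorem norm_b (P : Pg G ℂ) (x y : G) : ‖P.b x y‖ = 1 := by
  have h := congrArg norm (P.pow_card x y)
  rw [norm_pow, norm_one] at h
  exact (pow_eq_one_iff_of_nonneg (norm_nonneg _) Fintype.card_ne_zero).mp h

theorem norm_ft_le (P : Pg G ℂ) (f : G → ℂ) {m : ℝ} (hm : ∀ x, ‖f x‖ ≤ m) (x : G) :
    ‖P.ft f x‖ ≤ (univ.filter fun a => f a ≠ 0).card * m := by
  classical
  unfold Pg.ft
  calc ‖∑ a, f a * P.b a x‖ ≤ ∑ a, ‖f a * P.b a x‖ := norm_sum_le _ _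
    _ = ∑ a, ‖f a‖ := by
        refine sum_congr rfl fun a _ => ?_
        rw [norm_mul, norm_b, mul_one]
    _ = ∑ a ∈ univ.filter fun a => f a ≠ 0, ‖f a‖ := by
        rw [sum_filter]
        refine sum_congr rfl fun a _ => ?_
        split_ifs with h
        · rfl
        · rw [not_not] at h; rw [h, norm_zero]
    _ ≤ ∑ a ∈ univ.filter fun a => f a ≠ 0, m := sum_le_sum fun a _ => hm a
    _ = _ := by rw [sum_const, nsmul_eq_mul]

/-- The uncertainty principle. -/
theorem uncert (P : Pg G ℂ) (f : G → ℂ)
    (h : (univ.filter fun a => f a ≠ 0).card * (univ.filter fun a => P.ft f a ≠ 0).card <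
      Fintype.card G) : f = 0 := by
  classical
  obtain ⟨x0, -, hx0⟩ := exists_max_image (univ : Finset G) (fun x => ‖f x‖) ⟨0, mem_univ _⟩
  set m := ‖f x0‖ with hm
  have h1 : ∀ x, ‖f x‖ ≤ m := fun x => hx0 x (mem_univ x)
  have h2 := norm_ft_le P f h1
  have h3 := norm_ft_le P (P.ft f) h2 (-x0)
  rw [P.ft_ft, neg_neg, norm_mul] at h3
  have h4 : ‖(Fintype.card G : ℂ)‖ = Fintype.card G := by simp
  rw [h4] at h3
  have h5 : m = 0 := by
    by_contra h6
    have h7 : 0 < m := lt_of_le_of_ne (norm_nonneg _) (Ne.symm h6)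
    have h8 : ((univ.filter fun a => f a ≠ 0).card : ℝ) *
        (univ.filter fun a => P.ft f a ≠ 0).card < Fintype.card G := by exact_mod_cast h
    nlinarith
  funext x
  have := h1 x
  rw [h5] at this
  exact norm_le_zero_iff.mp this

/-- The quotient `E(a) / E(a - p)`, with the value `ep` of `E(0)` in the numerator and the value `em`
in the denominator. -/
noncomputable def gq (E : G → ℂ) (ep em : ℂ) (p a : G) : ℂ :=
  (if a = 0 then ep else E a) / (if a = p then em else E (a - p))

/-- The finite beta formula for the pair `(p, y)`. -/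
def A2 (P : Pg G ℂ) (E : G → ℂ) (ep em K : ℂ) (p y : G) : Prop :=
  P.ft (gq E ep em p) y = K * P.b p y * E p * gq E ep em (-p) y

theorem all_of_good (P : Pg G ℂ) (E : G → ℂ) {ep em K : ℂ} (hep : ep ≠ 0) (hem : em ≠ 0)
    (hE : ∀ x, x ≠ 0 → E x ≠ 0) (hK : K ^ 2 * (ep * em) = Fintype.card G)
    (Q : G → ℂ) (hQ0 : Q 0 = ep * em) (hQ : ∀ x, x ≠ 0 → Q x = E x * E (-x))
    (hB : ∀ x y, Q x * Q y * P.b x y = Q (x + y) * Q 0)
    (h2 : (univ.filter fun y : G => 2 • y = 0).card ≤ 4) (hn : 17 ≤ Fintype.card G)
    (hgood : ∀ p y : G, p ≠ 0 → y ≠ 0 → p + y ≠ 0 → ¬ (2 • p = 0 ∧ 2 • y = 0) →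
      A2 P E ep em K p y) (p y : G) (hp : p ≠ 0) : A2 P E ep em K p y := by
  classical
  -- the error
  set D : G → G → ℂ := fun p y => P.ft (gq E ep em p) y - K * P.b p y * E p * gq E ep em (-p) y
    with hD
  have hQne : ∀ x, Q x ≠ 0 := by
    intro x
    rcases eq_or_ne x 0 with rfl | hx
    · rw [hQ0]; exact mul_ne_zero hep hem
    · rw [hQ x hx]; exact mul_ne_zero (hE x hx) (hE (-x) (neg_ne_zero.mpr hx))
  have hQneg : ∀ x, Q (-x) = Q x := by
    intro x
    rcases eq_or_ne x 0 with rfl | hx
    · rw [neg_zero]
    · rw [hQ x hx, hQ (-x) (neg_ne_zero.mpr hx), neg_neg, mul_comm]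
  have hQp : ∀ x, Q x ^ 2 = Q 0 ^ 2 * P.b x x := by
    intro x
    have h := hB x (-x)
    rw [hQneg, add_neg_cancel, P.sym x (-x), P.neg] at h
    have h3 := P.ne_zero x x
    have h5 : Q x * Q x * (P.b x x)⁻¹ * P.b x x = Q 0 * Q 0 * P.b x x := by rw [h]
    rw [mul_assoc, inv_mul_cancel₀ h3, mul_one] at h5
    rw [pow_two, pow_two, h5]
  -- product of the two conventions
  have hprod : ∀ x : G, (if -x = 0 then ep else E (-x)) * (if x = 0 then em else E x) = Q x := by
    intro x
    rcases eq_or_ne x 0 with rfl | hx
    · simp [hQ0]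
    · rw [if_neg (neg_ne_zero.mpr hx), if_neg hx, hQ x hx, mul_comm]
  have hFT : ∀ p x : G, p ≠ 0 → P.ft (D p) x = -(K * E p) * D (-p) (x + p) := by
    intro p x hp
    have e1 : P.ft (D p) x = P.ft (P.ft (gq E ep em p)) x -
        K * E p * P.ft (gq E ep em (-p)) (x + p) := by
      simp only [hD, Pg.ft]
      rw [mul_sum, ← sum_sub_distrib]
      refine sum_congr rfl fun y _ => ?_
      rw [P.add' y x p, P.sym y p]
      ring
    have e2 : (Fintype.card G : ℂ) * gq E ep em p (-x) =
        K * E p * (K * P.b (-p) (x + p) * E (-p) * gq E ep em p (x + p)) := by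
      have e3 : gq E ep em p (-x) * Q (x + p) = gq E ep em p (x + p) * Q x := by
        have a1 := hprod x
        have a2 := hprod (-(x + p))
        rw [neg_neg, hQneg] at a2
        have a3 : (if -x = p then em else E (-x - p)) = (if -(x + p) = 0 then em else E (-(x + p))) := by
          have : (-x = p) ↔ (-(x + p) = 0) := by
            constructor
            · intro h; rw [← h]; abel
            · intro h
              have : x + p = 0 := neg_eq_zero.mp h
              exact (eq_neg_of_add_eq_zero_right this).symm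
          have e4 : -x - p = -(x + p) := by abel
          rw [e4]
          simp only [this]
        have a4 : (if x + p = p then em else E (x + p - p)) = (if x = 0 then em else E x) := by
          have : (x + p = p) ↔ x = 0 := by simp
          simp only [this, add_sub_cancel_right]
        have n1 : (if -(x + p) = 0 then em else E (-(x + p))) ≠ 0 := by
          split_ifs with h
          · exact hem
          · exact hE _ h
        have n2 : (if x = 0 then em else E x) ≠ 0 := by
          split_ifs with h
          · exact hem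
          · exact hE _ h
        unfold gq
        rw [a3, a4, ← a1, ← a2, div_mul_eq_mul_div, div_mul_eq_mul_div, div_eq_div_iff n1 n2]
        ring
      have e5 : Q 0 * Q x = Q p * P.b (-p) (x + p) * Q (x + p) := by
        have b1 := hB x p
        have b2 := hQp p
        have n5 := hQne 0
        have n6 := P.ne_zero p (x + p)
        rw [P.sym x p] at b1
        have b3 : Q 0 * Q x * P.b p (x + p) = Q p * Q (x + p) := by
          apply mul_right_cancel₀ n5
          rw [P.add']
          linear_combination Q p * b1 - Q x * P.b p x * b2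
        rw [P.neg]
        apply mul_right_cancel₀ n6
        rw [b3]
        field_simp
      have e6 : Q p = E p * E (-p) := hQ p hp
      have e7 : gq E ep em p (-x) * (Q 0) = gq E ep em p (x + p) * (Q p * P.b (-p) (x + p)) := by
        apply mul_right_cancel₀ (hQne (x + p))
        linear_combination Q 0 * e3 + gq E ep em p (x + p) * e5
      rw [← hK]
      rw [hQ0, e6] at e7
      linear_combination K ^ 2 * e7
    rw [e1, P.ft_ft, e2]
    simp only [hD, neg_neg]
    ring
  -- supports
  have hsupp : ∀ p : G, p ≠ 0 → (univ.filter fun y => D p y ≠ 0).card ≤ 4 := by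
    intro p hp
    rcases Classical.em (2 • p = 0) with h | h
    · refine (card_le_card ?_).trans h2
      intro y hy
      rw [mem_filter] at hy ⊢
      refine ⟨mem_univ _, ?_⟩
      by_contra hy2
      apply hy.2
      have hy0 : y ≠ 0 := by
        rintro rfl; exact hy2 (by simp)
      have hpy : p + y ≠ 0 := by
        intro h3
        apply hy2
        have : y = -p := (neg_eq_of_add_eq_zero_right h3).symm
        rw [this, smul_neg, h, neg_zero]
      exact sub_eq_zero.mpr (hgood p y hp hy0 hpy (fun h4 => hy2 h4.2))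
    · refine (card_le_card (t := {0, -p}) ?_).trans (card_le_two.trans (by norm_num))
      intro y hy
      rw [mem_filter] at hy
      rw [mem_insert, mem_singleton]
      by_contra hy2
      push Not at hy2
      apply hy.2
      have hpy : p + y ≠ 0 := fun h3 => hy2.2 (neg_eq_of_add_eq_zero_right h3).symm
      exact sub_eq_zero.mpr (hgood p y hp hy2.1 hpy (fun h4 => h h4.1))
  have hzero : D p = 0 := by
    apply uncert P
    have s1 := hsupp p hp
    have s2 : (univ.filter fun a => P.ft (D p) a ≠ 0).card ≤ 4 := by
      refine le_trans ?_ (hsupp (-p) (neg_ne_zero.mpr hp))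
      refine card_le_card_of_injOn (fun a => a + p) ?_ ?_
      · intro a ha
        rw [mem_coe, mem_filter] at ha ⊢
        refine ⟨mem_univ _, fun h => ha.2 ?_⟩
        rw [hFT p a hp, h, mul_zero]
      · intro a _ b _ hab
        exact add_right_cancel hab
    calc _ ≤ 4 * 4 := Nat.mul_le_mul s1 s2
      _ < Fintype.card G := by omega
  have := congrFun hzero y
  exact sub_eq_zero.mp this

end Pool.MP_d0f9e0_co.AN21
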